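import Pool.Agent.helper10.OM.SpecG

/-!
# Row GK4 of project OM (MP_bf63dc_nt): few 4-cliques
-/

set_option autoImplicit false

namespace Pool.Agent.OM

open Finset Real Pool.Agent.AT Pool.Agent.helper85.FC

/-- the linear form of a point -/
def GK4_f (H : ℕ) (p : ℕ × ℕ) : ℕ × ℤ := (p.1, 1 + 6 * (MH H : ℤ) * p.2)

theorem GK4_MH (H : ℕ) : 0 < MH H := Nat.factorial_pos _

theorem GK4_dvd {H s : ℕ} (h1 : 1 ≤ s) (h2 : s ≤ H) : s ∣ MH H := by
  apply Nat.dvd_factorial h1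
  calc s ≤ H := h2
    _ ≤ H ^ 2 := by nlinarith

theorem GK4_pair {H : ℕ} {p p' : ℕ × ℕ} (hp : 1 ≤ p.1) : Pair (GK4_f H p) (GK4_f H p') ↔
    TrueCase (rp p.1 p'.1).2 (rp p.1 p'.1).1 (((rp p.1 p'.1).2 : ℤ) - (rp p.1 p'.1).1 +
        6 * (MH H : ℤ) * (((rp p.1 p'.1).2 : ℤ) * p.2 - ((rp p.1 p'.1).1 : ℤ) * p'.2)) := by
  obtain ⟨G, hG⟩ : ∃ G : ℕ, G = Nat.gcd p.1 p'.1 := ⟨_, rfl⟩
  have hG0 : 0 < G := by
    rw [hG]
    exact Nat.gcd_pos_of_pos_left _ hp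
  obtain ⟨u, hu⟩ : G ∣ p.1 := hG ▸ Nat.gcd_dvd_left _ _
  obtain ⟨v, hv⟩ : G ∣ p'.1 := hG ▸ Nat.gcd_dvd_right _ _
  have e1 : p.1 / G = u := by rw [hu, Nat.mul_div_cancel_left _ hG0]
  have e2 : p'.1 / G = v := by rw [hv, Nat.mul_div_cancel_left _ hG0]
  unfold Pair GK4_f rp
  simp only
  rw [← hG, e1, e2]
  have e3 : ((p'.1 : ℤ) * (1 + 6 * (MH H : ℤ) * p.2) - (p.1 : ℤ) * (1 + 6 * (MH H : ℤ) * p'.2)) / ((G : ℕ) : ℤ) =
      (v : ℤ) - u + 6 * (MH H : ℤ) * ((v : ℤ) * p.2 - (u : ℤ) * p'.2) := by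
    have hGz : (G : ℤ) ≠ 0 := by exact_mod_cast hG0.ne'
    apply Int.ediv_eq_of_eq_mul_right hGz
    rw [hu, hv]
    push_cast
    ring
  rw [e3]

theorem GK4_inj (H : ℕ) : Function.Injective (GK4_f H) := by
  intro p p' h
  have h1 : p.1 = p'.1 := by
    have := congrArg Prod.fst h
    exact this
  have h2 : (1 : ℤ) + 6 * (MH H : ℤ) * p.2 = 1 + 6 * (MH H : ℤ) * p'.2 := congrArg Prod.snd h
  have h3 : (0 : ℤ) < MH H := by exact_mod_cast GK4_MH H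
  have h4 : p.2 = p'.2 := by
    have e1 : (6 : ℤ) * (MH H : ℤ) ≠ 0 := by positivity
    have e2 : (6 : ℤ) * (MH H : ℤ) * p.2 = 6 * (MH H : ℤ) * p'.2 := by linarith
    have e3 := mul_left_cancel₀ e1 e2
    exact_mod_cast e3
  exact Prod.ext h1 h4

theorem GK4_kr (h1 : PSY_stmt) {H : ℕ} {p p' : ℕ × ℕ} (hp : 1 ≤ p.1) (hp' : 1 ≤ p'.1) :
    kg (BG H) p p' = 0 ∨ (kg (BG H) p p' = 1 ∧ ¬ Pair (GK4_f H p) (GK4_f H p') ∧
      ¬ Pair (GK4_f H p') (GK4_f H p)) := by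
  unfold kg
  split_ifs with c1 c2
  · have e := GK4_pair (H := H) (p' := p') hp
    unfold BG
    split_ifs with c3
    · exact Or.inl rfl
    · right
      rw [← e] at c3
      exact ⟨rfl, c3, fun h => c3 (h1.1 _ _ h)⟩
  · have e := GK4_pair (H := H) (p' := p) hp'
    unfold BG
    split_ifs with c3
    · exact Or.inl rfl
    · right
      rw [← e] at c3
      exact ⟨rfl, fun h => c3 (h1.1 _ _ h), c3⟩
  · exact Or.inl rfl

theorem GK4_good {H : ℕ} (p : ℕ × ℕ) (h1 : 1 ≤ p.1) (h2 : p.1 ≤ H) : 0 < (GK4_f H p).1 ∧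
    IsCoprime ((GK4_f H p).1 : ℤ) (GK4_f H p).2 ∧ IsCoprime (6 : ℤ) (GK4_f H p).2 := by
  refine ⟨h1, ?_, ?_⟩
  · obtain ⟨c, hc⟩ := GK4_dvd h1 h2
    show IsCoprime ((p.1 : ℕ) : ℤ) (1 + 6 * (MH H : ℤ) * p.2)
    refine ⟨-(6 * c * p.2), 1, ?_⟩
    rw [hc]
    push_cast
    ring
  · show IsCoprime (6 : ℤ) (1 + 6 * (MH H : ℤ) * p.2)
    exact ⟨-((MH H : ℤ) * p.2), 1, by ring⟩

open Classical in
theorem GK4 (h1 : PSY_stmt) (h2 : ADV_stmt) : GK4_stmt := by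
  rintro ⟨C, δ, hC, hδ, -, hQ⟩
  refine ⟨C, δ, hC, hδ, ?_⟩
  intro F H Y hF hne hY
  obtain ⟨V, hV⟩ : ∃ V, V = VF F Y := ⟨_, rfl⟩
  obtain ⟨U, hU⟩ : ∃ U : ℕ × ℕ → ℕ × ℕ → ℝ, U = kg (BG H) := ⟨_, rfl⟩
  have hmem : ∀ p ∈ V, 1 ≤ p.1 ∧ p.1 ≤ H := by
    intro p hp
    rw [hV] at hp
    exact hF _ (Finset.mem_product.1 hp).1
  have hcard : #(V.image (GK4_f H)) = #F * Y := by
    rw [Finset.card_image_of_injective _ (GK4_inj H), hV, VF, Finset.card_product, Finset.card_range]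
  have hU' : ∀ p ∈ V, ∀ p' ∈ V, U p p' = 0 ∨ (U p p' = 1 ∧ ¬ Pair (GK4_f H p) (GK4_f H p') ∧
      ¬ Pair (GK4_f H p') (GK4_f H p)) := by
    intro p hp p' hp'
    rw [hU]
    exact GK4_kr h1 (hmem p hp).1 (hmem p' hp').1
  have hQ1 := hQ (fun _ => V.image (GK4_f H)) (#F * Y) (Nat.mul_pos (Finset.card_pos.2 hne) hY) (fun _ => hcard.ge) (by
    intro _ f hf
    obtain ⟨p, hp, rfl⟩ := Finset.mem_image.1 hf
    exact (GK4_good p (hmem p hp).1 (hmem p hp).2).1)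
  have e3 : ∏ _i : Fin 4, (((#(V.image (GK4_f H)) : ℕ) : ℝ)) = ((#F : ℝ) * Y) ^ 4 := by
    rw [Finset.prod_const, Finset.card_univ, Fintype.card_fin, hcard]
    push_cast
    rfl
  rw [e3] at hQ1
  push_cast at hQ1
  rw [← hV, ← hU]
  refine le_trans ?_ hQ1
  have step1 : K4 V U ≤ ∑ t ∈ V ×ˢ V ×ˢ V ×ˢ V, if (U t.1 t.2.1 ≠ 0 ∧ U t.1 t.2.2.1 ≠ 0 ∧ U t.1 t.2.2.2 ≠ 0 ∧
      U t.2.1 t.2.2.1 ≠ 0 ∧ U t.2.1 t.2.2.2 ≠ 0 ∧ U t.2.2.1 t.2.2.2 ≠ 0) then (1 : ℝ) else 0 := by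
    have e : K4 V U = ∑ t ∈ V ×ˢ V ×ˢ V ×ˢ V, U t.1 t.2.1 * U t.1 t.2.2.1 * U t.1 t.2.2.2 * U t.2.1 t.2.2.1 *
        U t.2.1 t.2.2.2 * U t.2.2.1 t.2.2.2 := by
      unfold K4
      rw [Finset.sum_product]
      refine Finset.sum_congr rfl fun x _ => ?_
      rw [Finset.sum_product]
      refine Finset.sum_congr rfl fun y _ => ?_
      rw [Finset.sum_product]
    rw [e]
    refine Finset.sum_le_sum fun t ht => ?_
    obtain ⟨m1, ht1⟩ := Finset.mem_product.1 ht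
    obtain ⟨m2, ht2⟩ := Finset.mem_product.1 ht1
    obtain ⟨m3, m4⟩ := Finset.mem_product.1 ht2
    split_ifs with c
    · obtain ⟨c1, c2, c3, c4, c5, c6⟩ := c
      rw [((hU' _ m1 _ m2).resolve_left c1).1, ((hU' _ m1 _ m3).resolve_left c2).1,
        ((hU' _ m1 _ m4).resolve_left c3).1, ((hU' _ m2 _ m3).resolve_left c4).1,
        ((hU' _ m2 _ m4).resolve_left c5).1, ((hU' _ m3 _ m4).resolve_left c6).1]
      norm_num
    · apply le_of_eq
      simp only [mul_eq_zero]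
      tauto
  refine le_trans step1 ?_
  rw [Finset.sum_boole]
  refine Nat.cast_le.2 ?_
  refine Finset.card_le_card_of_injOn (fun t => ![GK4_f H t.1, GK4_f H t.2.1, GK4_f H t.2.2.1,
    GK4_f H t.2.2.2]) ?_ ?_
  · intro t ht
    obtain ⟨hm, c1, c2, c3, c4, c5, c6⟩ := Finset.mem_filter.1 (Finset.mem_coe.1 ht)
    obtain ⟨m1, ht1⟩ := Finset.mem_product.1 hm
    obtain ⟨m2, ht2⟩ := Finset.mem_product.1 ht1
    obtain ⟨m3, m4⟩ := Finset.mem_product.1 ht2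
    have r1 := ((hU' _ m1 _ m2).resolve_left c1).2
    have r2 := ((hU' _ m1 _ m3).resolve_left c2).2
    have r3 := ((hU' _ m1 _ m4).resolve_left c3).2
    have r4 := ((hU' _ m2 _ m3).resolve_left c4).2
    have r5 := ((hU' _ m2 _ m4).resolve_left c5).2
    have r6 := ((hU' _ m3 _ m4).resolve_left c6).2
    apply Finset.mem_coe.2
    rw [Finset.mem_filter, Fintype.mem_piFinset]
    refine ⟨?_, h2 _ ?_, ?_⟩
    · intro i
      fin_cases i
      · exact Finset.mem_image_of_mem _ m1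
      · exact Finset.mem_image_of_mem _ m2
      · exact Finset.mem_image_of_mem _ m3
      · exact Finset.mem_image_of_mem _ m4
    · intro i
      fin_cases i
      · exact GK4_good t.1 (hmem _ m1).1 (hmem _ m1).2
      · exact GK4_good t.2.1 (hmem _ m2).1 (hmem _ m2).2
      · exact GK4_good t.2.2.1 (hmem _ m3).1 (hmem _ m3).2
      · exact GK4_good t.2.2.2 (hmem _ m4).1 (hmem _ m4).2
    · intro i j hij
      fin_cases i <;> fin_cases j
      · exact absurd rfl hij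
      · exact r1.1
      · exact r2.1
      · exact r3.1
      · exact r1.2
      · exact absurd rfl hij
      · exact r4.1
      · exact r5.1
      · exact r2.2
      · exact r4.2
      · exact absurd rfl hij
      · exact r6.1
      · exact r3.2
      · exact r5.2
      · exact r6.2
      · exact absurd rfl hij
  · intro t ht t' ht' h
    have m := (Finset.mem_filter.1 (Finset.mem_coe.1 ht)).1
    have m' := (Finset.mem_filter.1 (Finset.mem_coe.1 ht')).1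
    obtain ⟨m1, ht1⟩ := Finset.mem_product.1 m
    obtain ⟨m2, ht2⟩ := Finset.mem_product.1 ht1
    obtain ⟨m3, m4⟩ := Finset.mem_product.1 ht2
    obtain ⟨n1, hn1⟩ := Finset.mem_product.1 m'
    obtain ⟨n2, hn2⟩ := Finset.mem_product.1 hn1
    obtain ⟨n3, n4⟩ := Finset.mem_product.1 hn2
    have h0 := congrFun h 0
    have h1' := congrFun h 1
    have h2' := congrFun h 2
    have h3' := congrFun h 3
    simp only [Matrix.cons_val_zero, Matrix.cons_val_one, Matrix.cons_val] at h0 h1' h2' h3'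
    exact Prod.ext (GK4_inj H h0) (Prod.ext (GK4_inj H h1') (Prod.ext (GK4_inj H h2') (GK4_inj H h3')))

end Pool.Agent.OM
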